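import Pool.Agent.Helper70.TW.Goals

/-! Packet TW-TRF: transfer of systems to a subfield. -/

namespace Pool.Agent.Helper65.TWT

open MvPolynomial Pool.Agent.Helper70.BU Pool.Agent.Helper70.TW

universe u

/-- The map `GF F → GF K`. -/
def phi (F K : Type u) [Field F] [Field K] [Algebra F K] : GF F →+* GF K where
  toFun x := ⟨algebraMap F K x.re, algebraMap F K x.im⟩
  map_one' := by ext <;> simp [QuadraticAlgebra.re_one, QuadraticAlgebra.im_one]
  map_zero' := by ext <;> simp
  map_add' x y := by ext <;> simp
  map_mul' x y := by ext <;> simp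

theorem phi_re (F K : Type u) [Field F] [Field K] [Algebra F K] (x : GF F) :
    (phi F K x).re = algebraMap F K x.re := rfl

theorem phi_im (F K : Type u) [Field F] [Field K] [Algebra F K] (x : GF F) :
    (phi F K x).im = algebraMap F K x.im := rfl

theorem phi_star (F K : Type u) [Field F] [Field K] [Algebra F K] (x : GF F) :
    phi F K (star x) = star (phi F K x) := by
  ext <;> simp [phi_re, phi_im]

theorem re_sum' {K : Type u} [Field K] {τ : Type} (s : Finset τ) (f : τ → GF K) :
    (∑ i ∈ s, f i).re = ∑ i ∈ s, (f i).re := by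
  classical
  induction s using Finset.induction_on with
  | empty => simp
  | insert a s ha ih => rw [Finset.sum_insert ha, Finset.sum_insert ha, ← ih]; simp

theorem im_sum' {K : Type u} [Field K] {τ : Type} (s : Finset τ) (f : τ → GF K) :
    (∑ i ∈ s, f i).im = ∑ i ∈ s, (f i).im := by
  classical
  induction s using Finset.induction_on with
  | empty => simp
  | insert a s ha ih => rw [Finset.sum_insert ha, Finset.sum_insert ha, ← ih]; simp

theorem trf (hS : SUBS.{u}) : TRF.{u} := by
  intro F K _ _ _ ι κ Λ _ _ _ _ _ b α β f W W' s t bw bw' hMh hW' hMB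
  classical
  have h1 : ∀ l, ∃ g : MvPolynomial ((ι × Fin s) ⊕ (ι × Fin s)) (GF K),
      Mh (fun x : ι × Fin s => b x.1) (α l) (β l) g ∧
      (∀ d, (coeff d g).re ∈ W' l ∧ (coeff d g).im ∈ W' l) ∧
      ∀ y : ι × Fin s → GF K,
        evs (fun i => ∑ p, algebraMap K (GF K) ((bw p : W) : K) * y (i, p)) (f l) = evs y g :=
    fun l => hS F K ι κ b (α l) (β l) (f l) W (W' l) s (fun p => ((bw p : W) : K)) (hMh l)
      (fun p => (bw p).2) (hW' l)
  choose g hg1 hg2 hg3 using h1
  have h2 : ∀ l (q : Fin (t l)), ∃ c : K →ₗ[F] F, c ∘ₗ (W' l).subtype = (bw' l).coord q :=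
    fun l q => LinearMap.exists_extend _
  choose c hc using h2
  have h3 : ∀ l, ∀ x ∈ W' l, x = ∑ q, algebraMap F K (c l q x) * ((bw' l q : W' l) : K) := by
    intro l x hx
    have h := (bw' l).sum_repr ⟨x, hx⟩
    have h' := congrArg (fun z : W' l => (z : K)) h
    simp only [Submodule.coe_sum, Submodule.coe_smul] at h'
    rw [← h']
    refine Finset.sum_congr rfl fun q _ => ?_
    have e : c l q x = ((bw' l).repr ⟨x, hx⟩) q := by
      have := congrArg (fun T => T ⟨x, hx⟩) (hc l q)
      simpa using this
    rw [h', e, Algebra.smul_def]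
  let f' : (Σ l : Λ, Fin (t l)) → MvPolynomial ((ι × Fin s) ⊕ (ι × Fin s)) (GF F) := fun l =>
    ∑ d ∈ (g l.1).support, monomial d (⟨c l.1 l.2 (coeff d (g l.1)).re,
      c l.1 l.2 (coeff d (g l.1)).im⟩ : GF F)
  have hf'c : ∀ l d, d ∉ (g l.1).support → coeff d (f' l) = 0 := by
    intro l d hd
    simp only [f', coeff_sum, coeff_monomial]
    refine Finset.sum_eq_zero fun e he => ?_
    rw [if_neg]
    rintro rfl
    exact hd he
  have hf'M : ∀ l, Mh (fun x : ι × Fin s => b x.1) (α l.1) (β l.1) (f' l) := by
    intro l d hd k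
    apply hg1 l.1 d _ k
    by_contra h
    exact (mem_support_iff.mp hd) (hf'c l d h)
  obtain ⟨y, hy1, hy2⟩ := hMB f' hf'M
  have hw : LinearIndependent F (fun p => ((bw p : W) : K)) := by
    have := bw.linearIndependent
    exact this.map' W.subtype (Submodule.ker_subtype W)
  refine ⟨fun i => ∑ p, algebraMap K (GF K) ((bw p : W) : K) * phi F K (y (i, p)), ?_, ?_⟩
  · intro k
    obtain ⟨⟨i, p⟩, hip, hyp⟩ := hy1 k
    refine ⟨i, hip, fun h0 => hyp ?_⟩
    have hre : ∑ p, (y (i, p)).re • ((bw p : W) : K) = 0 := by
      have := congrArg QuadraticAlgebra.re h0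
      simp only at this
      rw [re_sum'] at this
      rw [QuadraticAlgebra.re_zero] at this
      rw [← this]
      refine Finset.sum_congr rfl fun p _ => ?_
      rw [Algebra.smul_def]
      simp [phi_re, mul_comm]
    have him : ∑ p, (y (i, p)).im • ((bw p : W) : K) = 0 := by
      have := congrArg QuadraticAlgebra.im h0
      simp only at this
      rw [im_sum'] at this
      rw [QuadraticAlgebra.im_zero] at this
      rw [← this]
      refine Finset.sum_congr rfl fun p _ => ?_
      rw [Algebra.smul_def]
      simp [phi_im, mul_comm]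
    have e1 := Fintype.linearIndependent_iff.mp hw _ hre p
    have e2 := Fintype.linearIndependent_iff.mp hw _ him p
    ext
    · simpa using e1
    · simpa using e2
  · intro l
    rw [hg3 l (fun x => phi F K (y x))]
    -- evaluation of g
    have hev : evs (fun x => phi F K (y x)) (g l) =
        ∑ q, algebraMap K (GF K) ((bw' l q : W' l) : K) * phi F K (evs y (f' ⟨l, q⟩)) := by
      have hl : evs (fun x => phi F K (y x)) (g l) = ∑ d ∈ (g l).support, coeff d (g l) *
          phi F K (d.prod fun n e => (Sum.elim y (fun i => star (y i)) n) ^ e) := by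
        unfold evs
        conv_lhs => rw [(g l).as_sum]
        rw [map_sum]
        refine Finset.sum_congr rfl fun d _ => ?_
        rw [eval_monomial]
        congr 1
        unfold Finsupp.prod
        rw [map_prod]
        refine Finset.prod_congr rfl fun n _ => ?_
        rw [map_pow]
        rcases n with n | n
        · rfl
        · simp only [Sum.elim_inr]
          rw [phi_star]
      have hr : ∀ q, evs y (f' ⟨l, q⟩) = ∑ d ∈ (g l).support,
          (⟨c l q (coeff d (g l)).re, c l q (coeff d (g l)).im⟩ : GF F) *
          (d.prod fun n e => (Sum.elim y (fun i => star (y i)) n) ^ e) := by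
        intro q
        unfold evs
        simp only [f', map_sum, eval_monomial]
      rw [hl]
      simp only [hr, map_sum, map_mul, Finset.mul_sum]
      rw [Finset.sum_comm]
      refine Finset.sum_congr rfl fun d _ => ?_
      simp only [← mul_assoc]
      rw [← Finset.sum_mul]
      congr 1
      ext
      · rw [re_sum']
        conv_lhs => rw [h3 l _ (hg2 l d).1]
        refine Finset.sum_congr rfl fun q _ => ?_
        simp [phi_re, mul_comm]
      · rw [im_sum']
        conv_lhs => rw [h3 l _ (hg2 l d).2]
        refine Finset.sum_congr rfl fun q _ => ?_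
        simp [phi_im, mul_comm]
    rw [hev]
    refine Finset.sum_eq_zero fun q _ => ?_
    rw [hy2 ⟨l, q⟩]
    simp

end Pool.Agent.Helper65.TWT
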